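import Pool.Agent.Q15.NZ.C5

/-!
# Tame representations over Noetherian local rings: reduction to `ℤ_p` and to `𝔽_p[[X]]`

Let `K` be a number field, `p` a prime number and `S` a finite set of primes of `K` none of which
lies above `p`. Q1 asks whether every continuous representation `ρ : G_K → GL_n(A)` unramified
outside `S` has finite image, where `A` is a complete Noetherian local ring with finite residue
field of characteristic `p` (this is the equivalent form of Q1 given in the problem). We show that
it is enough to know this for `A = ℤ_p`, and for everywhere unramified representations over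
`A = 𝔽_p[[X]]`.

(1) `PointCriterion`. A continuous representation `ρ` of any topological group over any Noetherian
local ring `A` with finite residue field has a virtually solvable image if `φ ∘ ρ` has finite image
for all local homomorphisms `φ` from `A` to complete discrete valuation rings with finite residue
field. The ring `A` may have nilpotent elements and zero divisors, and there is no bound for the
finite images. It is enough to know this for the `φ` with `φ c ≠ 0`, if `c` is not a zero divisor
modulo the nilradical. The main step: the `n`-th derived subgroup of a nilpotent group of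
invertible `n` by `n` matrices over a domain is trivial.

(2) `PotentiallyUnramified`. Let `O` be a Noetherian local domain of characteristic `p`, for example
`𝔽_p[[X]]`. For every continuous `ρ : G_K → GL_n(O)` unramified outside `S` there is a finite Galois
extension `L` of `K` such that the restriction of `ρ` to `G_L` is unramified everywhere.

(3) `Reduction`: for fixed `K`, `S`, `n` and `A`, the discrete valuation rings of characteristic zero
that receive a local homomorphism from `A`, and the everywhere unramified representations over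
those of characteristic `p`, are enough to get virtually solvable images over `A`.

(4) `FullReduction`: for fixed `K` and `S`, representations over `ℤ_p` together with everywhere
unramified representations over `𝔽_p[[X]]` of the groups `G_L`, `L` finite over `K`, are enough to
get virtually solvable images over all `A`. If `p` is not a zero divisor modulo the nilradical of
`A` (for example if `A` is flat over `ℤ_p`) then those over `ℤ_p` are enough (`IntegralReduction`);
if `p` is nilpotent in `A` then those over `𝔽_p[[X]]` are enough (`ModPReduction`).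

(5) `Equivalence`: by the known fact that tame representations with virtually solvable image have
finite image (given in the problem, and assumed here as `SolvableCase`), Q1 for `p` is equivalent
to Q1 for `A = ℤ_p` together with Q1 for `A = 𝔽_p[[X]]` and `S = ∅`.
-/

set_option autoImplicit false

open NumberField Matrix IsLocalRing

namespace Pool.Agent.Results.MP_924d78_nt.DiscreteValuationRingsSuffice

/-- The coefficient rings: `A` is a complete Noetherian local ring with finite residue field of
characteristic `p`. -/
def Coefficients (p : ℕ) (A : Type) [CommRing A] [IsLocalRing A] : Prop :=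
  IsNoetherianRing A ∧ IsAdicComplete (maximalIdeal A) A ∧ Finite (ResidueField A) ∧
    (p : A) ∈ maximalIdeal A

/-- `ρ` is continuous for the adic topology of the local ring `A`. -/
def AdicContinuous {G : Type} [Group G] [TopologicalSpace G] {n : ℕ} {A : Type} [CommRing A]
    [IsLocalRing A] (ρ : G →* GL (Fin n) A) : Prop :=
  let _ : TopologicalSpace A := (maximalIdeal A).adicTopology
  Continuous ρ

/-- `c` is not a zero divisor modulo the nilradical. -/
def Regular {A : Type} [CommRing A] (c : A) : Prop := ∀ a : A, IsNilpotent (c * a) → IsNilpotent a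

/-- The finite set `S` contains no prime above `p`. -/
def Tame {K : Type} [Field K] [NumberField K] (p : ℕ) (S : Set (Ideal (𝓞 K))) : Prop :=
  S.Finite ∧ ∀ v ∈ S, (p : 𝓞 K) ∉ v

/-- `τ` lies in the inertia group at the prime `P` of the ring of all algebraic integers. -/
def InInertia {K : Type} [Field K] (P : Ideal (𝓞 (AlgebraicClosure K)))
    (τ : Gal(AlgebraicClosure K/K)) : Prop :=
  ∀ x : 𝓞 (AlgebraicClosure K), τ • x - x ∈ P

/-- `ρ` is unramified at all primes of `K` outside `S`. -/
def UnramifiedOutside {K : Type} [Field K] [NumberField K] {M : Type} [Group M]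
    (S : Set (Ideal (𝓞 K))) (ρ : Gal(AlgebraicClosure K/K) →* M) : Prop :=
  ∀ P : Ideal (𝓞 (AlgebraicClosure K)), P.IsMaximal →
    P.comap (algebraMap (𝓞 K) (𝓞 (AlgebraicClosure K))) ∉ S → ∀ τ, InInertia P τ → ρ τ = 1

/-- All continuous representations `G_K → GL_n(A)` unramified outside `S` have finite image. -/
def TameFinite (K : Type) [Field K] [NumberField K] (S : Set (Ideal (𝓞 K))) (n : ℕ) (A : Type)
    [CommRing A] [IsLocalRing A] : Prop :=
  ∀ ρ : Gal(AlgebraicClosure K/K) →* GL (Fin n) A, AdicContinuous ρ → UnramifiedOutside S ρ →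
    (Set.range ρ).Finite

/-- For all finite extensions `L` of `K`, all continuous representations `G_L → GL_n(A)` that are
unramified everywhere have finite image. -/
def UnramifiedFinite (K : Type) [Field K] [NumberField K] (n : ℕ) (A : Type)
    [CommRing A] [IsLocalRing A] : Prop :=
  ∀ L : IntermediateField K (AlgebraicClosure K), FiniteDimensional K L →
    ∀ ρ : L.fixingSubgroup →* GL (Fin n) A, AdicContinuous ρ →
      (∀ P : Ideal (𝓞 (AlgebraicClosure K)), P.IsMaximal → ∀ τ : L.fixingSubgroup,
        InInertia P (τ : Gal(AlgebraicClosure K/K)) → ρ τ = 1) →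
      (Set.range ρ).Finite

/-- Some open subgroup has a solvable image. -/
def VirtuallySolvable {G M : Type} [Group G] [TopologicalSpace G] [Group M] (ρ : G →* M) : Prop :=
  ∃ H : Subgroup G, IsOpen (H : Set G) ∧ Group.IsSolvable (H.map ρ)

/-- All continuous representations `G_K → GL_n(A)` unramified outside `S` have a virtually solvable
image. -/
def TameSolvable (K : Type) [Field K] [NumberField K] (S : Set (Ideal (𝓞 K))) (n : ℕ) (A : Type)
    [CommRing A] [IsLocalRing A] : Prop :=
  ∀ ρ : Gal(AlgebraicClosure K/K) →* GL (Fin n) A, AdicContinuous ρ → UnramifiedOutside S ρ →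
    VirtuallySolvable ρ

/-- `φ ∘ ρ` has finite image for the local homomorphisms `φ` to complete discrete valuation rings
with finite residue field such that `φ c ≠ 0`. -/
def FiniteAtPoints {A : Type} [CommRing A] [IsLocalRing A] (c : A) {G : Type} [Group G] {n : ℕ}
    (ρ : G →* GL (Fin n) A) : Prop :=
  ∀ (O : Type) [CommRing O] [IsDomain O] [IsDiscreteValuationRing O] (φ : A →+* O),
    IsAdicComplete (maximalIdeal O) O → Finite (ResidueField O) → IsLocalHom φ → φ c ≠ 0 →
      (Set.range ((GeneralLinearGroup.map (n := Fin n) φ).comp ρ)).Finite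

/-- There is a local homomorphism `φ` from `A` to `O` with `φ c ≠ 0`. -/
def Point {A : Type} [CommRing A] [IsLocalRing A] (c : A) (O : Type) [CommRing O]
    [IsLocalRing O] : Prop :=
  ∃ φ : A →+* O, IsLocalHom φ ∧ φ c ≠ 0

/-- Tame representations have finite image over the discrete valuation rings `O` of characteristic
zero with `Point c O`. -/
def ZeroPoints (p : ℕ) (K : Type) [Field K] [NumberField K] (S : Set (Ideal (𝓞 K))) (n : ℕ)
    {A : Type} [CommRing A] [IsLocalRing A] (c : A) : Prop :=
  ∀ (O : Type) [CommRing O] [IsDomain O] [IsDiscreteValuationRing O],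
    Coefficients p O → CharZero O → Point c O → TameFinite K S n O

/-- Everywhere unramified representations have finite image over the discrete valuation rings `O`
of characteristic `p` with `Point c O`. -/
def PrimePoints (p : ℕ) (K : Type) [Field K] [NumberField K] (n : ℕ)
    {A : Type} [CommRing A] [IsLocalRing A] (c : A) : Prop :=
  ∀ (O : Type) [CommRing O] [IsDomain O] [IsDiscreteValuationRing O],
    Coefficients p O → CharP O p → Point c O → UnramifiedFinite K n O

/-- (1) -/
def PointCriterion : Prop :=
  ∀ (A : Type) [CommRing A] [IsLocalRing A] [IsNoetherianRing A], Finite (ResidueField A) →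
    ∀ c : A, Regular c → ∀ (G : Type) [Group G] [TopologicalSpace G] (n : ℕ)
      (ρ : G →* GL (Fin n) A), AdicContinuous ρ → FiniteAtPoints c ρ → VirtuallySolvable ρ

/-- (2) -/
def PotentiallyUnramified : Prop :=
  ∀ (K : Type) [Field K] [NumberField K] (p : ℕ), p.Prime →
    ∀ S : Set (Ideal (𝓞 K)), Tame p S →
    ∀ (O : Type) [CommRing O] [IsDomain O] [IsLocalRing O] [IsNoetherianRing O], CharP O p →
    ∀ (n : ℕ) (ρ : Gal(AlgebraicClosure K/K) →* GL (Fin n) O), AdicContinuous ρ →
      UnramifiedOutside S ρ →
      ∃ L : IntermediateField K (AlgebraicClosure K), FiniteDimensional K L ∧ IsGalois K L ∧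
        ∀ P : Ideal (𝓞 (AlgebraicClosure K)), P.IsMaximal →
          ∀ τ ∈ L.fixingSubgroup, InInertia P τ → ρ τ = 1

/-- (3) -/
def Reduction (p : ℕ) : Prop :=
  ∀ (K : Type) [Field K] [NumberField K] (S : Set (Ideal (𝓞 K))), Tame p S →
    ∀ (n : ℕ) (A : Type) [CommRing A] [IsLocalRing A], Coefficients p A →
      ∀ c : A, Regular c → ZeroPoints p K S n c → PrimePoints p K n c → TameSolvable K S n A

/-- (4), the case that `p` is not a zero divisor modulo the nilradical -/
def IntegralReduction (p : ℕ) [Fact p.Prime] : Prop :=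
  ∀ (K : Type) [Field K] [NumberField K] (S : Set (Ideal (𝓞 K))), Tame p S →
    (∀ m, TameFinite K S m ℤ_[p]) →
    ∀ (n : ℕ) (A : Type) [CommRing A] [IsLocalRing A], Coefficients p A →
      Regular (p : A) → TameSolvable K S n A

/-- (4), the case that `p` is nilpotent -/
def ModPReduction (p : ℕ) [Fact p.Prime] : Prop :=
  ∀ (K : Type) [Field K] [NumberField K] (S : Set (Ideal (𝓞 K))), Tame p S →
    (∀ m, UnramifiedFinite K m (PowerSeries (ZMod p))) →
    ∀ (n : ℕ) (A : Type) [CommRing A] [IsLocalRing A], Coefficients p A →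
      IsNilpotent (p : A) → TameSolvable K S n A

/-- (4), the general case -/
def FullReduction (p : ℕ) [Fact p.Prime] : Prop :=
  ∀ (K : Type) [Field K] [NumberField K] (S : Set (Ideal (𝓞 K))), Tame p S →
    (∀ m, TameFinite K S m ℤ_[p]) → (∀ m, UnramifiedFinite K m (PowerSeries (ZMod p))) →
    ∀ (n : ℕ) (A : Type) [CommRing A] [IsLocalRing A], Coefficients p A → TameSolvable K S n A

/-- Q1 for the prime `p`, in the equivalent form given in the problem -/
def QuestionOne (p : ℕ) : Prop :=
  ∀ (K : Type) [Field K] [NumberField K] (S : Set (Ideal (𝓞 K))), Tame p S →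
    ∀ (n : ℕ) (A : Type) [CommRing A] [IsLocalRing A], Coefficients p A → TameFinite K S n A

/-- Q1 for `A = ℤ_p` -/
def IntegerCase (p : ℕ) [Fact p.Prime] : Prop :=
  ∀ (K : Type) [Field K] [NumberField K] (S : Set (Ideal (𝓞 K))), Tame p S →
    ∀ n : ℕ, TameFinite K S n ℤ_[p]

/-- Q1 for `A = 𝔽_p[[X]]` and `S = ∅` -/
def PowerSeriesCase (p : ℕ) [Fact p.Prime] : Prop :=
  ∀ (K : Type) [Field K] [NumberField K] (n : ℕ), TameFinite K ∅ n (PowerSeries (ZMod p))

/-- The known fact used for the equivalence (given in the problem): tame representations with a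
virtually solvable image have finite image. -/
def SolvableCase (p : ℕ) : Prop :=
  ∀ (K : Type) [Field K] [NumberField K] (S : Set (Ideal (𝓞 K))), Tame p S →
    ∀ (n : ℕ) (A : Type) [CommRing A] [IsLocalRing A], Coefficients p A →
      ∀ ρ : Gal(AlgebraicClosure K/K) →* GL (Fin n) A, AdicContinuous ρ →
        UnramifiedOutside S ρ → VirtuallySolvable ρ → (Set.range ρ).Finite

/-- (5), the equivalence -/
def Equivalence (p : ℕ) [Fact p.Prime] : Prop :=
  SolvableCase p → (QuestionOne p ↔ IntegerCase p ∧ PowerSeriesCase p)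

/-! ### Proofs -/

theorem pointCriterion : PointCriterion := by
  intro A _ _ _ hfin c hc G _ _ n ρ hρ hpt
  let _ : TopologicalSpace A := (maximalIdeal A).adicTopology
  exact Q15.NZ.virtuallySolvable (A := A) rfl hfin c hc ρ hρ hpt

theorem potentially {K : Type} [Field K] [NumberField K] {p : ℕ} (hp : p.Prime)
    {S : Set (Ideal (𝓞 K))} (hS : Tame p S) {O : Type} [CommRing O] [IsDomain O] [IsLocalRing O]
    [IsNoetherianRing O] (hc : CharP O p) {n : ℕ}
    (ρ : Gal(AlgebraicClosure K/K) →* GL (Fin n) O) (hρ : AdicContinuous ρ)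
    (hur : UnramifiedOutside S ρ) :
    ∃ U : Subgroup Gal(AlgebraicClosure K/K), U.Normal ∧
      IsOpen (U : Set Gal(AlgebraicClosure K/K)) ∧
        ∀ P : Ideal (𝓞 (AlgebraicClosure K)), P.IsMaximal →
          ∀ τ ∈ U, InInertia P τ → ρ τ = 1 := by
  have hpf : Fact p.Prime := ⟨hp⟩
  let _ : TopologicalSpace O := (maximalIdeal O).adicTopology
  exact Q15.NZ.unramified (O := O) rfl (p := p) ρ hρ S hS.1 hS.2 hur

theorem potentiallyUnramified : PotentiallyUnramified := by
  intro K _ _ p hp S hS O _ _ _ _ hc n ρ hρ hur
  obtain ⟨U, hUn, hUo, hU1⟩ := potentially hp hS hc ρ hρ hur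
  obtain ⟨L, hL1, hL2, hL3⟩ := Q15.NZ.exists_field U hUn hUo
  refine ⟨L, hL1, hL2, ?_⟩
  rw [hL3]
  exact hU1

theorem adic_map {G : Type} [Group G] [TopologicalSpace G] {n : ℕ} {A O : Type} [CommRing A]
    [IsLocalRing A] [CommRing O] [IsLocalRing O] (φ : A →+* O) (hφ : IsLocalHom φ)
    (ρ : G →* GL (Fin n) A) (hρ : AdicContinuous ρ) :
    AdicContinuous ((GeneralLinearGroup.map (n := Fin n) φ).comp ρ) := by
  let _ : TopologicalSpace A := (maximalIdeal A).adicTopology
  let _ : TopologicalSpace O := (maximalIdeal O).adicTopology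
  have h1 : Continuous ρ := hρ
  have h2 : Continuous φ := Q15.NZ.continuous_local (A := A) (O := O) rfl rfl φ hφ
  exact (Q15.NZ.continuous_map φ h2).comp h1

theorem reduction {p : ℕ} (hp : p.Prime) : Reduction p := by
  intro K _ _ S hS n A _ _ hA c hc hZ hU ρ hρ hur
  have hN : IsNoetherianRing A := hA.1
  refine pointCriterion A hA.2.2.1 c hc _ n ρ hρ ?_
  intro O _ _ _ φ hcomp hres hφ hne
  have hcoef : Coefficients p O := by
    refine ⟨inferInstance, hcomp, hres, ?_⟩
    have h1 := map_nonunit φ _ hA.2.2.2
    rwa [map_natCast] at h1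
  have hcont := adic_map φ hφ ρ hρ
  have hur' : UnramifiedOutside S ((GeneralLinearGroup.map (n := Fin n) φ).comp ρ) := by
    intro P hP hPS τ hτ
    rw [MonoidHom.comp_apply, hur P hP hPS τ hτ, map_one]
  rcases Q15.NZ.char_cases hp hcoef.2.2.2 with h | h
  · exact hZ O hcoef h ⟨φ, hφ, hne⟩ _ hcont hur'
  · obtain ⟨U, hUn, hUo, hU1⟩ := potentially hp hS h _ hcont hur'
    obtain ⟨L, hL1, hL2, hL3⟩ := Q15.NZ.exists_field U hUn hUo
    refine Q15.NZ.finite_of_open _ U hUo ?_
    subst hL3
    refine hU O hcoef h ⟨φ, hφ, hne⟩ L hL1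
      (((GeneralLinearGroup.map (n := Fin n) φ).comp ρ).comp L.fixingSubgroup.subtype)
      ?_ (fun P hP τ hτ => hU1 P hP τ τ.2 hτ)
    let _ : TopologicalSpace O := (maximalIdeal O).adicTopology
    have h9 : Continuous ((GeneralLinearGroup.map (n := Fin n) φ).comp ρ) := hcont
    exact h9.comp continuous_subtype_val

section descend
variable {R O : Type} [CommRing R] [IsDomain R] [IsDiscreteValuationRing R]
  [IsAdicComplete (maximalIdeal R) R] [CommRing O] [IsDomain O] [IsDiscreteValuationRing O]
  (hcomp : IsAdicComplete (maximalIdeal O) O) (hfin : Finite (ResidueField O)) (φ : R →+* O)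
  (hinj : Function.Injective φ) (hloc : (maximalIdeal R).map φ ≤ maximalIdeal O)

include hcomp hfin hinj hloc in
theorem theta (n : ℕ) : ∃ (m : ℕ) (Θ : GL (Fin n) O →* GL (Fin m) R), Function.Injective Θ ∧
    ∀ (G : Type) [Group G] [TopologicalSpace G] (ρ : G →* GL (Fin n) O), AdicContinuous ρ →
      AdicContinuous (Θ.comp ρ) := by
  let _ : TopologicalSpace R := (maximalIdeal R).adicTopology
  let _ : TopologicalSpace O := (maximalIdeal O).adicTopology
  obtain ⟨m, Θ, h1, h2⟩ := Q15.NZ.exists_theta_dvr (R := R) (O := O) rfl rfl hcomp hfin φ hinj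
    hloc n
  exact ⟨m, Θ, h1, fun G _ _ ρ hρ => h2.comp (show Continuous ρ from hρ)⟩

theorem finite_of_comp {G M N : Type} [Group G] [Group M] [Group N] (Θ : M →* N)
    (h : Function.Injective Θ) (ρ : G →* M) (hf : (Set.range (Θ.comp ρ)).Finite) :
    (Set.range ρ).Finite := by
  refine Set.Finite.of_finite_image (f := Θ) ?_ h.injOn
  rwa [← Set.range_comp]

include hcomp hfin hinj hloc in
theorem tame_descend {K : Type} [Field K] [NumberField K] {S : Set (Ideal (𝓞 K))}
    (hR : ∀ m, TameFinite K S m R) (n : ℕ) : TameFinite K S n O := by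
  intro ρ hρ hur
  obtain ⟨m, Θ, h1, h2⟩ := theta hcomp hfin φ hinj hloc n
  refine finite_of_comp Θ h1 ρ (hR m _ (h2 _ ρ hρ) ?_)
  intro P hP hPS τ hτ
  rw [MonoidHom.comp_apply, hur P hP hPS τ hτ, map_one]

include hcomp hfin hinj hloc in
theorem unramified_descend {K : Type} [Field K] [NumberField K]
    (hR : ∀ m, UnramifiedFinite K m R) (n : ℕ) : UnramifiedFinite K n O := by
  intro L hL ρ hρ hur
  obtain ⟨m, Θ, h1, h2⟩ := theta hcomp hfin φ hinj hloc n
  refine finite_of_comp Θ h1 ρ (hR m L hL _ (h2 _ ρ hρ) ?_)
  intro P hP τ hτ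
  rw [MonoidHom.comp_apply, hur P hP τ hτ, map_one]

end descend

section prime
variable {p : ℕ} [hp : Fact p.Prime]

theorem zeroPoints {K : Type} [Field K] [NumberField K] {S : Set (Ideal (𝓞 K))}
    (h : ∀ m, TameFinite K S m ℤ_[p]) (n : ℕ) {A : Type} [CommRing A] [IsLocalRing A] (c : A) :
    ZeroPoints p K S n c := by
  intro O _ _ _ hO hc _
  have hcomp := hO.2.1
  obtain ⟨φ, h1, h2⟩ := Q15.NZ.exists_padic (O := O) hO.2.2.2
  exact tame_descend hcomp hO.2.2.1 φ h1 h2 h n

theorem primePoints {K : Type} [Field K] [NumberField K]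
    (h : ∀ m, UnramifiedFinite K m (PowerSeries (ZMod p))) (n : ℕ) {A : Type} [CommRing A]
    [IsLocalRing A] (c : A) : PrimePoints p K n c := by
  intro O _ _ _ hO hc _
  have hcomp := hO.2.1
  have hps := Q15.NZ.complete_power (ZMod p)
  obtain ⟨φ, h1, h2⟩ := Q15.NZ.exists_power (O := O) (p := p)
  exact unramified_descend hcomp hO.2.2.1 φ h1 h2 h n

theorem integralReduction : IntegralReduction p := by
  intro K _ _ S hS h n A _ _ hA hc
  refine reduction hp.out K S hS n A hA (p : A) hc (zeroPoints h n _) ?_
  intro O _ _ _ _ h2 h3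
  exfalso
  obtain ⟨φ, -, hne⟩ := h3
  apply hne
  rw [map_natCast]
  exact CharP.cast_eq_zero O p

theorem modPReduction : ModPReduction p := by
  intro K _ _ S hS h n A _ _ hA hnil
  refine reduction hp.out K S hS n A hA 1 (fun a ha => by rwa [one_mul] at ha) ?_
    (primePoints h n _)
  intro O _ _ _ _ h2 h3
  exfalso
  obtain ⟨φ, -, -⟩ := h3
  have h4 := hnil.map φ
  rw [map_natCast] at h4
  exact hp.out.ne_zero (Nat.cast_eq_zero.1 h4.eq_zero)

theorem unramified_of_power (h : PowerSeriesCase p) (K : Type) [Field K] [NumberField K] (m : ℕ) :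
    UnramifiedFinite K m (PowerSeries (ZMod p)) := by
  intro L hL ρ hρ hur
  have hLn : NumberField L := NumberField.of_module_finite K L
  obtain ⟨ψ, h1, h2, h3⟩ := Q15.NZ.transport L
  have h4 : (Set.range (ρ.comp ψ)).Finite := by
    refine h L m (ρ.comp ψ) ?_ ?_
    · let _ : TopologicalSpace (PowerSeries (ZMod p)) := (maximalIdeal _).adicTopology
      have h9 : Continuous ρ := hρ
      exact h9.comp h2
    · intro P hP _ τ hτ
      obtain ⟨P1, hP1, hτ1⟩ := h3 P hP τ hτ
      exact hur P1 hP1 (ψ τ) hτ1
  refine h4.subset ?_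
  rintro _ ⟨x, rfl⟩
  obtain ⟨y, rfl⟩ := h1 x
  exact ⟨y, rfl⟩

theorem fullReduction : FullReduction p := by
  intro K _ _ S hS h1 h2 n A _ _ hA
  exact reduction hp.out K S hS n A hA 1 (fun a ha => by rwa [one_mul] at ha)
    (zeroPoints h1 n _) (primePoints h2 n _)

theorem coefficients_padic : Coefficients p ℤ_[p] := by
  refine ⟨inferInstance, inferInstance, ?_, ?_⟩
  · exact Finite.of_equiv _ (PadicInt.residueField (p := p)).symm.toEquiv
  · rw [PadicInt.maximalIdeal_eq_span_p]
    exact Ideal.mem_span_singleton_self _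

theorem coefficients_power : Coefficients p (PowerSeries (ZMod p)) := by
  refine ⟨inferInstance, Q15.NZ.complete_power _, ?_, ?_⟩
  · exact Finite.of_equiv _ (PowerSeries.residueFieldOfPowerSeries (k := ZMod p)).symm.toEquiv
  · have h1 : (p : PowerSeries (ZMod p)) = 0 := by
      rw [← map_natCast (PowerSeries.C (R := ZMod p)), CharP.cast_eq_zero, map_zero]
    rw [h1]
    exact zero_mem _

theorem equivalence : Equivalence p := by
  intro hs
  constructor
  · intro h
    exact ⟨fun K _ _ S hS n => h K S hS n _ coefficients_padic,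
      fun K _ _ n => h K ∅ ⟨Set.finite_empty, fun v hv => absurd hv (Set.notMem_empty v)⟩ n _
        coefficients_power⟩
  · rintro ⟨h1, h2⟩ K _ _ S hS n A _ _ hA ρ hρ hur
    exact hs K S hS n A hA ρ hρ hur (fullReduction K S hS (h1 K S hS)
      (unramified_of_power h2 K) n A hA ρ hρ hur)

end prime

/-- **Main result.** -/
theorem result : PointCriterion ∧ PotentiallyUnramified ∧
    ∀ (p : ℕ) [Fact p.Prime], Reduction p ∧ IntegralReduction p ∧ ModPReduction p ∧
      FullReduction p ∧ Equivalence p :=
  ⟨pointCriterion, potentiallyUnramified, fun _ hp => ⟨reduction hp.out, integralReduction,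
    modPReduction, fullReduction, equivalence⟩⟩

end Pool.Agent.Results.MP_924d78_nt.DiscreteValuationRingsSuffice
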