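import Pool.Agent.Q17.ML.Three
import Pool.Agent.Y802.GC.NF

/-!
# Tame representations congruent to `1` modulo the exponent, and exterior squares

Let `K/F` be a finite Galois extension of number fields, `p` a prime number and `S` a set of primes
of `F`. Let `p ^ e` kill the abelian `p`-extensions of `K` unramified outside `S` (by class field
theory there is such an `e` if `S` is finite and contains no prime above `p`). Let `A` be a
Noetherian local ring in which `p` is regular of order `e0` (for instance a discrete valuation ring
of characteristic `0` in which `p` has valuation `e0`), and let `ρ` be a continuous representation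
of `G_K` over `A`, of any dimension, which is unramified outside `S` and trivial modulo the `j`-th
power of the maximal ideal, where `e * e0 ≤ j` and `e0 < (p - 1) * j`.

If `ρ` is not trivial, then there is a nonzero finite `𝔽_p[Gal(K/F)]`-module `W` such that

* `W` is a quotient of the group of the `p ^ (e - 1)`-th powers in the Galois group of a finite
  abelian `p`-extension of `K`, unramified outside `S` and Galois over `F`, and
* `W` is isomorphic to a submodule of a quotient of its own exterior square.

Moreover `W` has dimension at least three (and if the dimension is three, then `W` is isomorphic to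
its own exterior square, by comparison of dimensions). The module of leading terms of `ρ` and of its
conjugates has these properties. No condition on the degree of `K/F` is needed.
-/

set_option autoImplicit false

open NumberField IsLocalRing

namespace Pool.Agent.Results.MP_924d78_nt.ExteriorSquare

/-- The inertia elements at the primes outside `S`: those elements of the absolute Galois group of
`K` which are in the inertia group at a maximal ideal `P` of the ring of all algebraic integers such
that the prime of `F` below `P` is not in `S`. -/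
def Inertia {F : Type} [Field F] (S : Set (Ideal (𝓞 F)))
    (K : IntermediateField F (AlgebraicClosure F)) : Set K.fixingSubgroup :=
  {τ | ∃ P : Ideal (𝓞 (AlgebraicClosure F)), P.IsMaximal ∧
    P.comap (algebraMap (𝓞 F) (𝓞 (AlgebraicClosure F))) ∉ S ∧
      ∀ x : 𝓞 (AlgebraicClosure F), (τ : Gal(AlgebraicClosure F/F)) • x - x ∈ P}

/-- `f` is a homomorphism from the absolute Galois group of `K` to the finite abelian `p`-group `E`,
with open kernel and unramified outside `S`. -/
structure AbelianQuotient {F : Type} [Field F] (S : Set (Ideal (𝓞 F)))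
    (K : IntermediateField F (AlgebraicClosure F)) (p : ℕ) (E : Type) [CommGroup E]
    (f : K.fixingSubgroup →* E) : Prop where
  finite : Finite E
  pGroup : IsPGroup p E
  isOpen : IsOpen (f.ker : Set K.fixingSubgroup)
  unramified : ∀ τ ∈ Inertia S K, f τ = 1

/-- `p ^ e` kills the Galois group of every finite abelian extension of `K` of `p`-power degree
which is unramified outside `S` (at the finite primes). -/
def AbelianExponent {F : Type} [Field F] (S : Set (Ideal (𝓞 F)))
    (K : IntermediateField F (AlgebraicClosure F)) (p e : ℕ) : Prop :=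
  ∀ (E : Type) [CommGroup E] (f : K.fixingSubgroup →* E), AbelianQuotient S K p E f →
    ∀ g, f g ^ (p ^ e) = 1

/-- The topology of the local ring `A` is the adic topology, and `p` is regular of order `e0 ≥ 1`: it
lies in the `e0`-th power of the maximal ideal, and its image in the graded ring of `A` is not a
zero divisor. -/
structure Coefficients (A : Type) [CommRing A] [IsLocalRing A] [TopologicalSpace A] (p e0 : ℕ) :
    Prop where
  adic : IsAdic (maximalIdeal A)
  pos : 1 ≤ e0
  mem : (p : A) ∈ maximalIdeal A ^ e0
  regular : ∀ k : ℕ, ∀ x ∈ maximalIdeal A ^ k,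
    (p : A) * x ∈ maximalIdeal A ^ (k + e0 + 1) → x ∈ maximalIdeal A ^ (k + 1)

/-- `ρ` is unramified outside `S` and trivial modulo the `j`-th power of the maximal ideal. -/
structure NearlyTrivial {F : Type} [Field F] (S : Set (Ideal (𝓞 F)))
    (K : IntermediateField F (AlgebraicClosure F)) {A : Type} [CommRing A] [IsLocalRing A] {n : ℕ}
    (j : ℕ) (ρ : K.fixingSubgroup →* GL (Fin n) A) : Prop where
  unramified : ∀ τ ∈ Inertia S K, ρ τ = 1
  trivial_mod : ∀ (g : K.fixingSubgroup) (a b : Fin n),
    ((ρ g : Matrix (Fin n) (Fin n) A) - 1) a b ∈ maximalIdeal A ^ j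

/-- The image `W` of `u` is a nonzero module which is a submodule of a quotient of its own exterior
square. The absolute Galois group of `F` acts on the additive group `B`. The map `u` is an
equivariant homomorphism from the absolute Galois group of `K` to `B`, so that `W` is stable. The
map `β` is alternating and biadditive; as `β g h = 0` if `u g = 0`, it is an equivariant
alternating biadditive map of `W × W` to `B`. The group `W` is contained in the group generated by
the values of `β`, which is a quotient of the exterior square of `W`. Moreover `p` kills `W`, and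
`u` factors through the `p ^ (e - 1)`-th powers in the Galois group of a finite abelian
`p`-extension of `K` which is unramified outside `S` and Galois over `F`. -/
structure InOwnSquare {F : Type} [Field F] [CharZero F] (S : Set (Ideal (𝓞 F)))
    (K : IntermediateField F (AlgebraicClosure F)) [IsGalois F K] (p e : ℕ) {B : Type}
    [AddCommGroup B] [DistribMulAction Gal(AlgebraicClosure F/F) B] (u : K.fixingSubgroup → B)
    (β : K.fixingSubgroup → K.fixingSubgroup → B) : Prop where
  add : ∀ g h, u (g * h) = u g + u h
  conj : ∀ (σ : Gal(AlgebraicClosure F/F)) (g : K.fixingSubgroup),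
    u (MulAut.conjNormal σ g) = σ • u g
  ne_zero : ∃ g, u g ≠ 0
  torsion : ∀ g, p • u g = 0
  factor : ∃ (E : Type) (_ : CommGroup E) (f : K.fixingSubgroup →* E), AbelianQuotient S K p E f ∧
    (∀ g, f g ^ p ^ (e - 1) = 1 → u g = 0) ∧
    ∀ (σ : Gal(AlgebraicClosure F/F)) (g : K.fixingSubgroup),
      f g = 1 → f (MulAut.conjNormal σ g) = 1
  add_left : ∀ g g' h, β (g * g') h = β g h + β g' h
  self : ∀ g, β g g = 0
  skew : ∀ g h, β g h = -β h g
  eq_zero : ∀ g h, u g = 0 → β g h = 0
  conj_bracket : ∀ (σ : Gal(AlgebraicClosure F/F)) (g h : K.fixingSubgroup),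
    β (MulAut.conjNormal σ g) (MulAut.conjNormal σ h) = σ • β g h
  mem : ∀ g, u g ∈ AddSubgroup.closure {b | ∃ x y, β x y = b}

/-- **Main theorem.** -/
theorem result (p : ℕ) [Fact p.Prime] (F : Type) [Field F] [NumberField F]
    (K : IntermediateField F (AlgebraicClosure F)) [FiniteDimensional F K] [IsGalois F K]
    (S : Set (Ideal (𝓞 F))) (e : ℕ) (he : AbelianExponent S K p e)
    (A : Type) [CommRing A] [IsLocalRing A] [IsNoetherianRing A] [TopologicalSpace A]
    (e0 : ℕ) (hA : Coefficients A p e0) (n j : ℕ) (hj : e * e0 ≤ j) (hj1 : e0 < (p - 1) * j)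
    (ρ : K.fixingSubgroup →* GL (Fin n) A) (hρ : Continuous ρ) (h : NearlyTrivial S K j ρ)
    (hne : ∃ g, ρ g ≠ 1) :
    ∃ (B : Type) (_ : AddCommGroup B) (_ : DistribMulAction Gal(AlgebraicClosure F/F) B)
      (u : K.fixingSubgroup → B) (β : K.fixingSubgroup → K.fixingSubgroup → B),
        InOwnSquare S K p e u β ∧ p ^ 3 ≤ Nat.card (Set.range u) := by
  obtain ⟨hur, htriv⟩ := h
  obtain ⟨hA, he0, hp1, hp2⟩ := hA
  have hp : Pool.Agent.W569.UF.RegOrd A p e0 := ⟨hp1, hp2⟩
  have hcG : CompactSpace Gal(AlgebraicClosure F/F) := inferInstance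
  have hopen : IsOpen (K.fixingSubgroup : Set Gal(AlgebraicClosure F/F)) :=
    IntermediateField.fixingSubgroup_isOpen K
  have hfi : Finite (Gal(AlgebraicClosure F/F) ⧸ K.fixingSubgroup) :=
    Subgroup.quotient_finite_of_isOpen _ hopen
  have hcH : CompactSpace K.fixingSubgroup := by
    have h1 : IsClosed (K.fixingSubgroup : Set Gal(AlgebraicClosure F/F)) :=
      Subgroup.isClosed_of_isOpen _ hopen
    exact isCompact_iff_compactSpace.1 h1.isCompact
  have hj2 : 1 ≤ j := by
    rcases Nat.eq_zero_or_pos j with h0 | h0
    · rw [h0, mul_zero] at hj1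
      omega
    · exact h0
  have hexp : ∀ (E : Type) [CommGroup E] [Finite E], IsPGroup p E →
      ∀ f : K.fixingSubgroup →* E, IsOpen (f.ker : Set K.fixingSubgroup) →
        (∀ τ ∈ Inertia S K, f τ = 1) → ∀ g, f g ^ p ^ e = 1 :=
    fun E _ hE hpE f hf hu g => he E f ⟨hE, hpE, hf, hu⟩ g
  obtain ⟨B, iB, a, u, β, hS⟩ := Pool.Agent.Q17.ML.ext_main (H := K.fixingSubgroup) (p := p)
    (e := e) hA he0 hp (Inertia S K) (fun σ τ hτ => Pool.Agent.Y802.GC.UrN_conj S _ σ τ hτ)
    hexp hj hj2 hj1 ρ hρ hur htriv hne
  let inst : DistribMulAction Gal(AlgebraicClosure F/F) B :=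
    { smul := a
      one_smul := hS.a_one
      mul_smul := hS.a_mul
      smul_zero := fun σ => by
        have h1 := hS.a_add σ 0 0
        rw [add_zero] at h1
        exact left_eq_add.1 h1
      smul_add := hS.a_add }
  obtain ⟨E, i1, i2, f, f1, f2, f3, f4, f5⟩ := hS.factor
  have htors : ∀ g, p • u g = 0 := by
    intro g
    rw [← Pool.Agent.Q17.ML.pow_nsmul hS.add]
    refine f4 _ ?_
    rw [map_pow, ← pow_mul, ← pow_succ']
    rcases Nat.eq_zero_or_pos e with h0 | h0
    · subst h0
      have h1 := hexp E f1 f f2 f3 g
      rw [pow_zero, pow_one] at h1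
      rw [h1, one_pow]
    · rw [Nat.sub_add_cancel h0]
      exact hexp E f1 f f2 f3 g
  have hfin : (Set.range u).Finite := by
    have h1 : ∀ x y, f x = f y → u x = u y := by
      intro x y hxy
      have h2 := f4 (x * y⁻¹) (by rw [map_mul, map_inv, hxy, mul_inv_cancel, one_pow])
      rw [hS.add, Pool.Agent.Q17.ML.inv_neg' hS.add, ← sub_eq_add_neg, sub_eq_zero] at h2
      exact h2
    have h3 : Finite f.range := inferInstance
    have h4 : Function.Surjective
        (fun x : f.range => (⟨u x.2.choose, x.2.choose, rfl⟩ : Set.range u)) := by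
      rintro ⟨_, g, rfl⟩
      refine ⟨⟨f g, g, rfl⟩, ?_⟩
      apply Subtype.ext
      exact h1 _ _ (Exists.choose_spec (⟨g, rfl⟩ : ∃ x, f x = f g))
    exact @Set.toFinite _ _ (Finite.of_surjective _ h4)
  exact ⟨B, iB, inst, u, β, ⟨hS.add, hS.conj, hS.ne, htors, ⟨E, i1, f, ⟨i2, f1, f2, f3⟩, f4, f5⟩,
    hS.add_left, hS.self, hS.skew, hS.ker, hS.bconj, hS.mem⟩,
    Pool.Agent.Q17.ML.three hS.add hS.ne hfin htors hS.add_left hS.self hS.ker hS.skew hS.mem⟩

end Pool.Agent.Results.MP_924d78_nt.ExteriorSquare
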