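import Pool.Agent.Q17.FL.Wrap

/-!
# A graph criterion for representations which become tame and congruent to `1` over `K`

Let `K/F` be a finite Galois extension of number fields of degree prime to `p` and `S` a set of
primes of `F` such that the abelian `p`-extensions of `K` unramified outside `S` have finite
exponent (by class field theory this is the case if `S` is finite and contains no prime above `p`).
Let `A` be a Noetherian local ring in which `p` is regular of order `e0` (for instance a discrete
valuation ring of characteristic `0` in which `p` has valuation `e0`, or a regular local ring in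
which `p` lies in the `e0`-th power of the maximal ideal but not in the next one). Let `ρ` be a
continuous representation of `G_F` over `A` of dimension `n` whose reduction is the diagonal
representation `χ_1, ..., χ_n`, and whose restriction to `G_K` is unramified outside `S` and trivial
modulo the `j`-th power of the maximal ideal.

Consider the directed graph on `1, ..., n` with an arrow `a → b` if the character `χ_a χ_b⁻¹` of
`G_F` occurs in the abelian `p`-extensions of `K` unramified outside `S`. Let `r` be any function on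
the vertices. Suppose that for every arrow `a → b` with `r(a) ≤ r(b)` there is no walk of a length
`i` with `2 ≤ i ≤ m` from `a` to `b`, and `p ^ t` kills the `χ_a χ_b⁻¹`-part of the abelian
`p`-extensions of `K` unramified outside `S`, where `t * e0 < m * j`. Then `ρ` is trivial on `G_K`.

For constant `r` all arrows are concerned. If `r` decreases along all arrows, which is possible if
the graph has no directed cycles, then there is no condition on the exponents at all.
-/

set_option autoImplicit false

open NumberField IsLocalRing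

namespace Pool.Agent.Results.MP_924d78_nt.GraphCriterion

/-- The inertia elements at the primes outside `S`: those elements of the absolute Galois group of
`K` which are in the inertia group at a maximal ideal `P` of the ring of all algebraic integers such
that the prime of `F` below `P` is not in `S`. -/
def Inertia {F : Type} [Field F] (S : Set (Ideal (𝓞 F)))
    (K : IntermediateField F (AlgebraicClosure F)) : Set K.fixingSubgroup :=
  {τ | ∃ P : Ideal (𝓞 (AlgebraicClosure F)), P.IsMaximal ∧
    P.comap (algebraMap (𝓞 F) (𝓞 (AlgebraicClosure F))) ∉ S ∧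
      ∀ x : 𝓞 (AlgebraicClosure F), (τ : Gal(AlgebraicClosure F/F)) • x - x ∈ P}

/-- `p ^ e` kills the Galois group of every finite abelian extension of `K` of `p`-power degree
which is unramified outside `S` (at the finite primes). -/
def AbelianExponent {F : Type} [Field F] (S : Set (Ideal (𝓞 F)))
    (K : IntermediateField F (AlgebraicClosure F)) (p e : ℕ) : Prop :=
  ∀ (E : Type) [CommGroup E] [Finite E], IsPGroup p E → ∀ f : K.fixingSubgroup →* E,
    IsOpen (f.ker : Set K.fixingSubgroup) → (∀ τ ∈ Inertia S K, f τ = 1) →
      ∀ g, f g ^ (p ^ e) = 1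

/-- `p` is regular of order `e0` in the local ring `A`: it lies in the `e0`-th power of the maximal
ideal, and its image in the graded ring of `A` is not a zero divisor. -/
def RegularOfOrder (A : Type) [CommRing A] [IsLocalRing A] (p e0 : ℕ) : Prop :=
  (p : A) ∈ maximalIdeal A ^ e0 ∧ ∀ k : ℕ, ∀ x ∈ maximalIdeal A ^ k,
    (p : A) * x ∈ maximalIdeal A ^ (k + e0 + 1) → x ∈ maximalIdeal A ^ (k + 1)

/-- `f` is a homomorphism modulo the ideal `I`, with open kernel and unramified outside `S`, from the
absolute Galois group of `K` to the additive group of the ring `B`, and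
`f (σ g σ⁻¹) = ψ(σ) f(g)` modulo `I` for all `σ` in the absolute Galois group of `F`. -/
structure Eigen {F : Type} [Field F] [CharZero F] (S : Set (Ideal (𝓞 F)))
    (K : IntermediateField F (AlgebraicClosure F)) [IsGalois F K] {B : Type} [CommRing B]
    (I : Ideal B) (ψ : Gal(AlgebraicClosure F/F) → B) (f : K.fixingSubgroup → B) : Prop where
  add : ∀ g h, f (g * h) - (f g + f h) ∈ I
  isOpen : IsOpen {g | f g ∈ I}
  unramified : ∀ τ ∈ Inertia S K, f τ ∈ I
  conj : ∀ (σ : Gal(AlgebraicClosure F/F)) (g : K.fixingSubgroup),
    f (MulAut.conjNormal σ g) - ψ σ * f g ∈ I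

/-- There is an arrow `a → b`: a nonzero homomorphism with open kernel, unramified outside `S`, from
the absolute Galois group of `K` to the field `κ`, on which the absolute Galois group of `F` acts
through `χ_a χ_b⁻¹`. -/
def Arrow {F : Type} [Field F] [CharZero F] (S : Set (Ideal (𝓞 F)))
    (K : IntermediateField F (AlgebraicClosure F)) [IsGalois F K] {κ : Type} [Field κ] {n : ℕ}
    (χ : Fin n → Gal(AlgebraicClosure F/F) →* κˣ) (a b : Fin n) : Prop :=
  ∃ f, Eigen S K ⊥ (fun σ => ((χ a σ * (χ b σ)⁻¹ : κˣ) : κ)) f ∧ ∃ g, f g ≠ 0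

/-- `p ^ t` kills the part of the abelian `p`-extensions of `K` unramified outside `S` on which the
absolute Galois group of `F` acts through the character `θ` with values in the residue field of
`A`: it kills, for all `M`, every homomorphism with open kernel, unramified outside `S`, from the
absolute Galois group of `K` to `A / m ^ M`, on which the absolute Galois group of `F` acts through
a map `ψ` which reduces to `θ`. -/
def EigenExponent {F : Type} [Field F] [CharZero F] (S : Set (Ideal (𝓞 F)))
    (K : IntermediateField F (AlgebraicClosure F)) [IsGalois F K] (p t : ℕ)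
    {A : Type} [CommRing A] [IsLocalRing A]
    (θ : Gal(AlgebraicClosure F/F) →* (ResidueField A)ˣ) : Prop :=
  ∀ (M : ℕ) (ψ : Gal(AlgebraicClosure F/F) → A) (f : K.fixingSubgroup → A),
    (∀ σ, residue A (ψ σ) = θ σ) → Eigen S K (maximalIdeal A ^ M) ψ f →
      ∀ g, (p : A) ^ t * f g ∈ maximalIdeal A ^ M

/-- There is a walk `a = c_0, c_1, ..., c_i = b` of length `i` in the graph with arrows `E`. -/
def Walk {n : ℕ} (E : Fin n → Fin n → Prop) : ℕ → Fin n → Fin n → Prop
  | 0, a, b => a = b
  | i + 1, a, b => ∃ c, E a c ∧ Walk E i c b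

/-- The reduction of `ρ` is the diagonal representation `χ_1, ..., χ_n`, and the restriction of `ρ` to
the absolute Galois group of `K` is unramified outside `S` and trivial modulo the `j`-th power of
the maximal ideal. -/
structure NearlyTrivial {F : Type} [Field F] (S : Set (Ideal (𝓞 F)))
    (K : IntermediateField F (AlgebraicClosure F)) {A : Type} [CommRing A] [IsLocalRing A] {n : ℕ}
    (χ : Fin n → Gal(AlgebraicClosure F/F) →* (ResidueField A)ˣ) (j : ℕ)
    (ρ : Gal(AlgebraicClosure F/F) →* GL (Fin n) A) : Prop where
  reduction : ∀ σ, (ρ σ : Matrix (Fin n) (Fin n) A).map (residue A) =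
    Matrix.diagonal fun a => (χ a σ : ResidueField A)
  unramified : ∀ τ ∈ Inertia S K, ρ τ = 1
  trivial_mod : ∀ (g : K.fixingSubgroup) (a b : Fin n),
    ((ρ g : Matrix (Fin n) (Fin n) A) - 1) a b ∈ maximalIdeal A ^ j

/-- **Main theorem.** -/
theorem result (p : ℕ) [Fact p.Prime] (F : Type) [Field F] [NumberField F]
    (K : IntermediateField F (AlgebraicClosure F)) [FiniteDimensional F K] [IsGalois F K]
    (hK : ¬ p ∣ Module.finrank F K) (S : Set (Ideal (𝓞 F))) (he : ∃ e, AbelianExponent S K p e)
    (A : Type) [CommRing A] [IsLocalRing A] [IsNoetherianRing A] [TopologicalSpace A]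
    (hA : IsAdic (maximalIdeal A)) (e0 : ℕ) (he0 : 1 ≤ e0) (hp : RegularOfOrder A p e0)
    (n j : ℕ) (ρ : Gal(AlgebraicClosure F/F) →* GL (Fin n) A) (hρ : Continuous ρ)
    (χ : Fin n → Gal(AlgebraicClosure F/F) →* (ResidueField A)ˣ) (hχ : NearlyTrivial S K χ j ρ)
    (r : Fin n → ℕ) (t m : ℕ) (hj : t * e0 < m * j)
    (hwalk : ∀ a b, Arrow S K χ a b → r a ≤ r b → ∀ i, 2 ≤ i → i ≤ m →
      ¬ Walk (Arrow S K χ) i a b)
    (ht : ∀ a b, Arrow S K χ a b → r a ≤ r b → EigenExponent S K p t (χ a * (χ b)⁻¹)) :
    ∀ g : K.fixingSubgroup, ρ g = 1 := by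
  obtain ⟨hχ, hur, htriv⟩ := hχ
  have hcG : CompactSpace Gal(AlgebraicClosure F/F) := inferInstance
  have hopen : IsOpen (K.fixingSubgroup : Set Gal(AlgebraicClosure F/F)) :=
    IntermediateField.fixingSubgroup_isOpen K
  have hfi : Finite (Gal(AlgebraicClosure F/F) ⧸ K.fixingSubgroup) :=
    Subgroup.quotient_finite_of_isOpen _ hopen
  have hcH : CompactSpace K.fixingSubgroup := by
    have h1 : IsClosed (K.fixingSubgroup : Set Gal(AlgebraicClosure F/F)) :=
      Subgroup.isClosed_of_isOpen _ hopen
    exact isCompact_iff_compactSpace.1 h1.isCompact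
  have hpA : (p : A) ∈ maximalIdeal A := by
    have h1 := Ideal.pow_le_pow_right he0 hp.1
    rwa [pow_one] at h1
  have hd : IsUnit ((Nat.card (Gal(AlgebraicClosure F/F) ⧸ K.fixingSubgroup) : ℕ) : A) := by
    rw [← Subgroup.index_eq_card, ← IntermediateField.finrank_eq_fixingSubgroup_index]
    exact Pool.Agent.Q17.FL.isUnit_nat hpA hK
  have harr : ∀ a b, Pool.Agent.Q17.FL.Arr (ResidueField A) K.fixingSubgroup (Inertia S K) χ a b ↔
      Arrow S K χ a b := by
    intro a b
    constructor
    · rintro ⟨f, h1, h2, ⟨g, hg⟩, h4⟩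
      refine ⟨fun g => Multiplicative.toAdd (f g), ⟨fun g h => ?_, ?_, fun τ hτ => ?_,
        fun σ g => ?_⟩, g, fun h => hg h⟩
      · rw [map_mul, toAdd_mul, sub_self]
        exact Ideal.zero_mem _
      · exact h1
      · rw [h2 τ hτ, toAdd_one]
        exact Ideal.zero_mem _
      · have h5 := h4 σ g
        have h6 : (χ b σ : ResidueField A) ≠ 0 := Units.ne_zero _
        rw [Ideal.mem_bot, Units.val_mul, Units.val_inv_eq_inv_val]
        field_simp
        linear_combination h5
    · rintro ⟨f, hf, g, hg⟩
      have hadd : ∀ g h, f (g * h) = f g + f h := fun g h => by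
        have := hf.add g h
        rwa [Ideal.mem_bot, sub_eq_zero] at this
      have h1 : f 1 = 0 := by
        have := hadd 1 1
        rw [mul_one] at this
        exact left_eq_add.1 this
      refine ⟨{ toFun := fun g => Multiplicative.ofAdd (f g), map_one' := by rw [h1]; rfl,
                map_mul' := fun g h => by rw [hadd, ofAdd_add] }, hf.isOpen, fun τ hτ => ?_,
        ⟨g, fun h => hg h⟩, fun σ g => ?_⟩
      · have := hf.unramified τ hτ
        rw [Ideal.mem_bot] at this
        show Multiplicative.ofAdd (f τ) = 1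
        rw [this]
        rfl
      · have := hf.conj σ g
        rw [Ideal.mem_bot, sub_eq_zero] at this
        show (χ b σ : ResidueField A) * f (MulAut.conjNormal σ g) = (χ a σ : ResidueField A) * f g
        rw [this, ← mul_assoc, ← Units.val_mul, mul_comm (χ a σ), mul_inv_cancel_left]
  have hwk : ∀ i a b, Pool.Agent.Q17.FL.Wk
      (Pool.Agent.Q17.FL.Arr (ResidueField A) K.fixingSubgroup (Inertia S K) χ) i a b →
      Walk (Arrow S K χ) i a b := by
    intro i
    induction i with
    | zero => exact fun a b h => h
    | succ i ih => exact fun a b ⟨c, h1, h2⟩ => ⟨c, (harr a c).1 h1, ih c b h2⟩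
  have hj1 : 1 ≤ j := by
    rcases Nat.eq_zero_or_pos j with h0 | h0
    · rw [h0, mul_zero] at hj
      omega
    · exact h0
  obtain ⟨e, he⟩ := he
  refine Pool.Agent.Q17.FL.feed_main (H := K.fixingSubgroup) (e := e) (t := t) (m := m) hA hp hd
    (Ur := Inertia S K) ?_ hj1 hj ρ hρ hur htriv χ
    (fun σ a => by
      have h1 := congrFun (congrFun (hχ σ) a) a
      rwa [Matrix.map_apply, Matrix.diagonal_apply_eq] at h1)
    (fun σ a b hab => by
      have h1 := congrFun (congrFun (hχ σ) a) b
      rw [Matrix.map_apply, Matrix.diagonal_apply_ne _ hab] at h1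
      exact (residue_eq_zero_iff _).1 h1)
    r (fun a b h1 h2 i h3 h4 h5 => hwalk a b ((harr a b).1 h1) h2 i h3 h4 (hwk i a b h5)) ?_
  · intro M f hf hu g
    refine Pool.Agent.Q17.FL.kill_of_exp (e := e) hpA
      (Un := fun E _ f => ∀ τ ∈ Inertia S K, f τ = 1) ?_ he M f hf hu g
    intro E _ f hu τ hτ
    exact Subtype.ext (hu τ hτ)
  · intro a b h1 h2 M ψ f hf hu hψ hf2 g
    have hlift : ∀ g, ∃ x : A, Ideal.Quotient.mk (maximalIdeal A ^ M) x =
        Multiplicative.toAdd (f g) := fun g => Ideal.Quotient.mk_surjective _
    choose F hF using hlift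
    have h5 := ht a b ((harr a b).1 h1) h2 M ψ F (fun σ => ?_) ⟨fun g h => ?_, ?_, fun τ hτ => ?_,
      fun σ g => ?_⟩ g
    · rw [← hF, ← map_mul]
      exact Ideal.Quotient.eq_zero_iff_mem.2 h5
    · have h3 := hψ σ
      have h4 : residue A (ψ σ) = ((χ b σ)⁻¹ : (ResidueField A)ˣ) *
          ((χ b σ : ResidueField A) * residue A (ψ σ)) := by
        rw [← mul_assoc, ← Units.val_mul, inv_mul_cancel, Units.val_one, one_mul]
      rw [h4, h3, mul_comm, ← Units.val_mul]
      rfl
    · rw [← Ideal.Quotient.mk_eq_mk_iff_sub_mem, map_add, hF, hF, hF, map_mul, toAdd_mul]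
    · have h6 : {g | F g ∈ maximalIdeal A ^ M} = (f.ker : Set K.fixingSubgroup) := by
        ext g
        show F g ∈ maximalIdeal A ^ M ↔ f g = 1
        rw [← Ideal.Quotient.eq_zero_iff_mem, hF]
        exact Iff.rfl
      rw [h6]
      exact hf
    · rw [← Ideal.Quotient.eq_zero_iff_mem, hF, hu τ hτ]
      rfl
    · rw [← Ideal.Quotient.mk_eq_mk_iff_sub_mem, map_mul, hF, hF]
      exact hf2 σ g

end Pool.Agent.Results.MP_924d78_nt.GraphCriterion
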