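import Pool.Agent.Q15.TF.A4

/-!
# Tamely ramified lifts of monomial representations with regular Frobenius elements are trivial

Let `K` be a number field, `p` a prime, `A` a Noetherian local ring with residue field `κ`, in which
`p` is regular of order `e0` (for instance `W(κ)[[T_1, ..., T_r]]` with `e0 = 1`, or a discrete
valuation ring of characteristic `0` and ramification index `e0`). Let `ρ : G_K → GL_n(A)` be a
continuous representation, `N` an open normal subgroup of `G_K` with fixed field `F`, and `ρ` trivial
modulo the `j`-th power of the maximal ideal on `N`, where `s * e0 ≤ j`. So the reduction `r` of `ρ`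
is a representation of `Gal(F/K)`. Let `S` be any set (it may be infinite) of primes of `K` not above
`p`, and suppose that the restriction of `ρ` to `N = G_F` is unramified outside `S`, and that there is
no everywhere unramified class in `H¹(N, ad r)` invariant under `G_K`, for example that `F` has no
everywhere unramified cyclic extension of degree `p`.

Suppose that `r` is monomial (each matrix `r(g)` has one nonzero entry in each row, for example `r` is
a sum of characters, or induced from a character). A prime `v` with norm `q` and Frobenius element `σ`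
is admitted to `S` if either there is no matrix `X ≠ 0` with `r(σ) X = q X r(σ)`, or if `r(σ)` is
diagonal with distinct entries and moreover `q` is congruent to `1` modulo `p`, or the norm `q ^ f` of
the primes of `F` above `v` is not congruent to `1` modulo `p ^ (s + 1)`. The theorem: `ρ` is trivial
on `N`, so that the image of `ρ` is finite.

(In the first case, and if `q` is congruent to `1` modulo `p`, a local argument shows that `ρ` is
unramified at `v`. In the remaining case `N` has many homomorphisms to `κ` which are tamely ramified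
at `v` and of the type allowed for `ρ`, and there are local lifts with infinite inertia image.)

The first part of the theorem is more general: `r` is arbitrary, and the role of the projection to the
diagonal matrices is played by an equivariant linear map `Φ` of the space of matrices.
-/

set_option autoImplicit false

namespace Pool.Agent.Results.MP_924d78_nt.RegularFrobenius

open NumberField Matrix IsLocalRing

/-- the absolute Galois group of the field `K`, with the Krull topology -/
abbrev AbsGal (K : Type) [Field K] : Type := Gal(AlgebraicClosure K/K)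

/-- the ring of all algebraic integers -/
abbrev ZBar (K : Type) [Field K] : Type := 𝓞 (AlgebraicClosure K)

/-- `p` is regular of order `e0` in the local ring `A`: it lies in the `e0`-th power of the maximal
ideal, and its image in the graded ring of `A` is not a zero divisor. -/
def RegularOfOrder (A : Type) [CommRing A] [IsLocalRing A] (p e0 : ℕ) : Prop :=
  (p : A) ∈ maximalIdeal A ^ e0 ∧ ∀ k : ℕ, ∀ x ∈ maximalIdeal A ^ k,
    (p : A) * x ∈ maximalIdeal A ^ (k + e0 + 1) → x ∈ maximalIdeal A ^ (k + 1)

section

variable {K : Type} [Field K] [NumberField K]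

/-- `τ` lies in the inertia group at the prime ideal `P` of the ring of all algebraic integers -/
def InInertia (P : Ideal (ZBar K)) (τ : AbsGal K) : Prop := ∀ x : ZBar K, τ • x - x ∈ P

/-- the prime of `K` below `P` -/
noncomputable def below (P : Ideal (ZBar K)) : Ideal (𝓞 K) :=
  P.comap (algebraMap (𝓞 K) (ZBar K))

/-- `σ` is a Frobenius element at `P`: it acts on the residue field as `x ↦ x ^ N(v)`, where `v` is
the prime of `K` below `P` -/
def IsFrobenius (P : Ideal (ZBar K)) (σ : AbsGal K) : Prop :=
  ∀ x : ZBar K, σ • x - x ^ Ideal.absNorm (below P) ∈ P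

variable {A : Type} [CommRing A] [IsLocalRing A] {n : ℕ}

/-- the reduction of `ρ` modulo the maximal ideal -/
noncomputable def reduction (ρ : AbsGal K →* GL (Fin n) A) (g : AbsGal K) :
    Matrix (Fin n) (Fin n) (ResidueField A) :=
  (ρ g : Matrix (Fin n) (Fin n) A).map (residue A)

/-- `p` is regular of order `e0 ≥ 1`, `N` is an open normal subgroup, `ρ` is continuous, trivial modulo
the `j`-th power of the maximal ideal on `N`, where `s * e0 ≤ j` and `e0 < (p - 1) * j` (the latter
follows from the former if `p ≠ 2` and `s ≠ 0`), no prime in `S` lies above `p`, and the restriction of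
`ρ` to `N` is unramified outside `S` -/
structure Setup [TopologicalSpace A] (p s e0 j : ℕ) (ρ : AbsGal K →* GL (Fin n) A)
    (N : Subgroup (AbsGal K)) (S : Set (Ideal (𝓞 K))) : Prop where
  order : 1 ≤ e0
  regular : RegularOfOrder A p e0
  level : s * e0 ≤ j
  large : e0 < (p - 1) * j
  continuous : Continuous ρ
  normal : N.Normal
  isOpen : IsOpen (N : Set (AbsGal K))
  trivial_mod : ∀ x ∈ N, ∀ a b, ((ρ x : Matrix (Fin n) (Fin n) A) - 1) a b ∈ maximalIdeal A ^ j
  prime_to_p : ∀ v ∈ S, (p : 𝓞 K) ∉ v
  unramified : ∀ P : Ideal (ZBar K), P.IsMaximal → below P ∉ S → ∀ τ ∈ N, InInertia P τ → ρ τ = 1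

/-- some power `σ ^ m` lies in `N`, and `q ^ m` is not congruent to `1` modulo `p ^ (s + 1)` -/
def NormCondition (p s : ℕ) (N : Subgroup (AbsGal K)) (σ : AbsGal K) (q : ℕ) : Prop :=
  ∃ m, σ ^ m ∈ N ∧ ¬ p ^ (s + 1) ∣ q ^ m - 1

/-- there is a Frobenius element `σ` at each prime ideal above a prime `v` in `S` such that `σ` and the
norm `q` of `v` have the property `C` -/
def AtFrobenius (S : Set (Ideal (𝓞 K))) (C : AbsGal K → ℕ → Prop) : Prop :=
  ∀ Q : Ideal (ZBar K), Q.IsMaximal → below Q ∈ S →
    ∃ σ, IsFrobenius Q σ ∧ C σ (Ideal.absNorm (below Q))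

/-- there is no nonzero everywhere unramified homomorphism `f` with open kernel from `N` to the
additive group of matrices over the residue field with `f (g x g⁻¹) = r(g) f(x) r(g)⁻¹`, `r` being the
reduction of `ρ` -/
def NoClass (ρ : AbsGal K →* GL (Fin n) A) (N : Subgroup (AbsGal K)) : Prop :=
  ∀ f : AbsGal K → Matrix (Fin n) (Fin n) (ResidueField A),
    (∀ x ∈ N, ∀ y ∈ N, f (x * y) = f x + f y) →
    (∀ g, ∀ x ∈ N, f (g * x * g⁻¹) = reduction ρ g * f x * reduction ρ g⁻¹) →
    IsOpen {x | x ∈ N ∧ f x = 0} →
    (∀ P : Ideal (ZBar K), P.IsMaximal → ∀ τ ∈ N, InInertia P τ → f τ = 0) →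
    ∀ x ∈ N, f x = 0

/-- the fixed field of `N` has no everywhere unramified finite abelian extension of `p`-power degree,
except for itself -/
def NoUnramified (p : ℕ) (N : Subgroup (AbsGal K)) : Prop :=
  ∀ (E : Type) [CommGroup E] [Finite E], IsPGroup p E → ∀ f : N →* E,
    IsOpen (f.ker : Set N) →
    (∀ P : Ideal (ZBar K), P.IsMaximal → ∀ τ : N, InInertia P (τ : AbsGal K) → f τ = 1) →
    ∀ g, f g = 1

end

section residual

variable {κ : Type} [Field κ] {n : ℕ}

/-- `R * X = q * X * R`, with coefficients in `κ` -/
def Tame (q : ℕ) (R X : Matrix (Fin n) (Fin n) κ) : Prop := R * X = (q : κ) • (X * R)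

/-- every row has at most one nonzero entry -/
def Monomial (R : Matrix (Fin n) (Fin n) κ) : Prop := ∀ i j j', R i j ≠ 0 → R i j' ≠ 0 → j = j'

/-- the matrix is diagonal, with distinct entries on the diagonal -/
def DiagonalDistinct (R : Matrix (Fin n) (Fin n) κ) : Prop :=
  ∃ d : Fin n → κ, R = Matrix.diagonal d ∧ ∀ i j, i ≠ j → d i ≠ d j

/-- the condition on the value `R` of the reduction at a Frobenius element, up to the map `Φ`: there
is no `X ≠ 0` with `Tame q R X`; or `q = 1` in `κ` and the trace form on the centralizer of `R` is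
nondegenerate (this holds if the eigenvalues are distinct); or the norm condition `C` holds and the `X`
with `Tame q R X` commute with the centralizer of `R`; or the norm condition holds, `Φ` vanishes at the
`X` with `Tame q R X`, and they commute with the elements of the centralizer at which `Φ` vanishes -/
def LocalCondition (Φ : Matrix (Fin n) (Fin n) κ →ₗ[κ] Matrix (Fin n) (Fin n) κ) (q : ℕ)
    (R : Matrix (Fin n) (Fin n) κ) (C : Prop) : Prop :=
  (∀ X, Tame q R X → X = 0) ∨
  ((q : κ) = 1 ∧ ∀ X, R * X = X * R → (∀ i : ℕ, (R ^ i * X).trace = 0) → X = 0) ∨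
  (C ∧ ((∀ X Y, Tame q R X → R * Y = Y * R → Y * X = X * Y) ∨
    ((∀ X, Tame q R X → Φ X = 0) ∧
      ∀ X Y, Tame q R X → R * Y = Y * R → Φ Y = 0 → Y * X = X * Y)))

end residual

/-- **Theorem.** Let `K`, `p`, `A`, `ρ`, `N` and `S` be as in `Setup`.

1. Let `Φ` be a linear endomorphism of the space of matrices over the residue field which commutes with
the conjugation by the values of the reduction of `ρ`. If `LocalCondition` holds for the Frobenius
elements at the primes in `S` and `NoClass ρ N` holds, then `ρ` is trivial on `N`.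

2. Suppose that the reduction of `ρ` is monomial, and that for the Frobenius elements `σ` at the primes
`v ∈ S`, `q` being the norm of `v`, there is no `X ≠ 0` with `Tame q R X`, or the value `R` of the
reduction is diagonal with distinct entries, and `q` is `1` modulo `p` or `NormCondition` holds. If
`NoClass ρ N` holds, then `ρ` is trivial on `N`.

3. `NoClass ρ N` holds if the fixed field of `N` has no everywhere unramified abelian extension of
`p`-power degree. -/
theorem result (K : Type) [Field K] [NumberField K] (p : ℕ) [Fact p.Prime] (A : Type) [CommRing A]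
    [IsLocalRing A] [IsNoetherianRing A] [TopologicalSpace A] (hA : IsAdic (maximalIdeal A))
    (s e0 j n : ℕ) (ρ : AbsGal K →* GL (Fin n) A) (N : Subgroup (AbsGal K))
    (S : Set (Ideal (𝓞 K))) (hρ : Setup p s e0 j ρ N S) :
    (∀ Φ : Matrix (Fin n) (Fin n) (ResidueField A) →ₗ[ResidueField A]
        Matrix (Fin n) (Fin n) (ResidueField A),
      (∀ g X, Φ (reduction ρ g * X * reduction ρ g⁻¹) =
        reduction ρ g * Φ X * reduction ρ g⁻¹) →
      AtFrobenius S (fun σ q => LocalCondition Φ q (reduction ρ σ) (NormCondition p s N σ q)) →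
      NoClass ρ N → ∀ x ∈ N, ρ x = 1) ∧
    ((∀ g, Monomial (reduction ρ g)) →
      AtFrobenius S (fun σ q => (∀ X, Tame q (reduction ρ σ) X → X = 0) ∨
        (DiagonalDistinct (reduction ρ σ) ∧
          ((q : ResidueField A) = 1 ∨ NormCondition p s N σ q))) →
      NoClass ρ N → ∀ x ∈ N, ρ x = 1) ∧
    (NoUnramified p N → NoClass ρ N) := by
  obtain ⟨he0, hreg, hj, hj2, hc, hN, hNo, htriv, hS, hur⟩ := hρ
  have hp : p.Prime := Fact.out
  have hj1 : 1 ≤ j := by
    rcases Nat.eq_zero_or_pos j with h | h
    · rw [h, mul_zero] at hj2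
      exact absurd hj2 (Nat.not_lt_zero _)
    · exact h
  have hchar : CharP (ResidueField A) p := by
    refine (CharP.charP_iff_prime_eq_zero hp).2 ?_
    have h1 : (p : A) ∈ maximalIdeal A := by
      have h2 := Ideal.pow_le_pow_right he0 hreg.1
      rwa [pow_one] at h2
    have h2 := (residue_eq_zero_iff _).2 h1
    rwa [map_natCast] at h2
  have gen : ∀ Φ : Matrix (Fin n) (Fin n) (ResidueField A) →ₗ[ResidueField A]
        Matrix (Fin n) (Fin n) (ResidueField A),
      (∀ g X, Φ (reduction ρ g * X * reduction ρ g⁻¹) =
        reduction ρ g * Φ X * reduction ρ g⁻¹) →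
      AtFrobenius S (fun σ q => LocalCondition Φ q (reduction ρ σ) (NormCondition p s N σ q)) →
      NoClass ρ N → ∀ x ∈ N, ρ x = 1 := fun Φ hΦ hL hC =>
    Pool.Agent.Q15.TF.main hA hp he0 hreg hj1 hj hj2 ρ hc N hNo htriv hS hur Φ hΦ hL hC
  have hinv : ∀ g, reduction ρ g * reduction ρ g⁻¹ = 1 := by
    intro g
    have h2 := Pool.Agent.Q15.TF.rd_mul (ρ g : Matrix (Fin n) (Fin n) A)
      (ρ g⁻¹ : Matrix (Fin n) (Fin n) A)
    rw [← Units.val_mul, ← map_mul, mul_inv_cancel, map_one, Units.val_one,
      Pool.Agent.Q15.TF.rd_one] at h2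
    exact h2.symm
  refine ⟨gen, fun hmon hL => ?_, fun hun f hadd _ hopen hfur =>
    Pool.Agent.Q15.TF.cls_of hp N hNo hun f hadd hopen hfur⟩
  refine gen (Pool.Agent.Q15.TF.dg (ResidueField A) n) (fun g X => ?_) (fun Q hQ hQS => ?_)
  · refine Pool.Agent.Q15.TF.dg_conj (hmon g) (hmon g⁻¹) (hinv g) ?_ X
    have h1 := hinv g⁻¹
    rwa [inv_inv] at h1
  · obtain ⟨σ, hσ, h⟩ := hL Q hQ hQS
    refine ⟨σ, hσ, ?_⟩
    rcases h with h | ⟨⟨d, h1, h2⟩, h3⟩
    · exact Or.inl h
    · have hd : ∀ i, d i ≠ 0 := by
        intro i h0
        have h4 := congrFun (congrFun (hinv σ) i) i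
        rw [h1, Matrix.diagonal_mul, h0, zero_mul, Matrix.one_apply_eq] at h4
        exact zero_ne_one h4
      have h4 := Pool.Agent.Q15.TF.loc_diag h2 h3 hd
      rw [← h1] at h4
      exact h4

end Pool.Agent.Results.MP_924d78_nt.RegularFrobenius
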